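import Pool.Agent.COV.StmtsB

set_option autoImplicit false

/-!
# COV, row HRE: the shape of the elements
-/

namespace Pool.Agent.COV.H44

open Polynomial Pool.Agent.KDT.Z Pool.Agent.COV

/-- **HRE** -/
theorem hre (gnx : GnxStmt) (gnl : GnlStmt) (emb1 : Pool.Agent.KDT.Z.EmbStatement) : HreStmt := by
  intro k U _ _ _ f g J _ th cl act Jk q H0 t0 hc c hH hcJ
  have hinf := (gnl U g J th cl hc.jk.toJG H0).2.2.2 hc.inf _ hH
  obtain ⟨h, hh0, y, hy1, hy2, hy3⟩ := hinf.nonempty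
  have hhk : h ∈ Jk := ((hc.h0 h).1 hh0).1
  have he := emb1 k U f g hc.env.gm
  have ht0 : cl (emb U t0) ∈ Jk :=
    (hc.jk.mem_k _).2 (Or.inr (Or.inr ⟨t0, hc.ot, (he t0 t0).2.2.2.1.2 hc.ot, rfl⟩))
  have hny : ∃ i, y i ∉ (algebraMap k U).range := by
    by_contra hcon
    push Not at hcon
    have hcon2 : ∀ i, ∃ a : k, algebraMap k U a = y i := fun i => by
      obtain ⟨a, ha⟩ := hcon i
      exact ⟨a, ha⟩
    choose t ht using hcon2
    have hty : emb U t = y := funext fun i => ht i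
    have hot : On f t := (he t t).2.2.2.1.1 (by rw [hty]; exact hy1)
    have hyk : cl y ∈ Jk := by
      rw [← hty]
      exact (hc.jk.mem_k _).2 (Or.inr (Or.inr ⟨t, hot, (he t t).2.2.2.1.2 hot, rfl⟩))
    apply hcJ
    have e : c = cl y - cl (emb U t0) - h := by rw [hy3]; abel
    rw [e]
    exact Jk.sub_mem (Jk.sub_mem hyk ht0) hhk
  obtain ⟨σ, hσ⟩ := gnx k U f g hc.env q y hy2 hny
  refine ⟨σ, h, hh0, ?_⟩
  have h1 := (hc.jk.act_cl σ q hc.on).2
  have h2 : (fun i => σ (q i)) = y := funext hσ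
  rw [h1, h2, hy3]
  abel

end Pool.Agent.COV.H44
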